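import Pool.Agent.Helper5.SX.St

/-!
# Project SX (MP_7b75b3_co), module CCI: domination of the components with multiplicities
-/

set_option autoImplicit false

namespace Pool.Agent.Helper87.SX

open _root_.SX
open Finset
open scoped Classical

theorem hCCI : StBFB → StCLA → StCCI := by
  intro hBFB hCLA V _ A c y l t0 t1 C L F
  have hst : St A c y l := F.st.mx.st
  -- membership in the components
  have hCB : ∀ B ∈ Gd A c y l t0 t1, ∀ v ∈ C B, A.b v = B := by
    intro B hB v hv
    have h1 := (F.comp B hB).sub hv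
    have h2 : v ∈ Rb A c y l B := (mem_filter.1 h1).1
    exact (mem_filter.1 h2).2.1
  by_cases hl : 0 < l
  swap
  · -- no star: no component is nonempty
    have hl0 : l = 0 := by omega
    subst hl0
    have hK : Kset A c y 0 = ∅ := by simp [Kset]
    have hKM : KM A c y 0 = ∅ := by simp [KM, hK]
    have hG : Gd A c y 0 t0 t1 = ∅ := by
      by_contra hne
      obtain ⟨B, hB⟩ := Finset.nonempty_iff_ne_empty.2 hne
      obtain ⟨v, hv⟩ := (F.comp B hB).ne
      obtain ⟨z, hz⟩ := hCLA V A c y 0 t0 t1 C L F B hB v hv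
      have := (mem_filter.1 hz).2
      rw [hK] at this
      exact absurd this (Finset.notMem_empty z)
    rw [hKM, hG]
    simp
  obtain ⟨_, _, _, hKMc, hKc, _, hCenc, hls, _, _⟩ := hBFB V A c y l hst hl
  set G := Gd A c y l t0 t1 with hGdef
  set U : Finset V := G.biUnion C with hU
  set K := Kset A c y l with hK
  set M := KM A c y l with hM
  -- cardinalities of the disjoint unions
  have hUc : U.card = ∑ B ∈ G, (C B).card := by
    rw [hU]
    apply Finset.card_biUnion
    intro B hB B' hB' hne
    refine Finset.disjoint_left.2 ?_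
    intro v hv hv'
    exact hne ((hCB B hB v hv).symm.trans (hCB B' hB' v hv'))
  set T : Finset V := U.filter (fun z => TightAt A c y l z (c z)) with hT
  have hTc : T.card = ∑ B ∈ G, (Tn A c y l (C B)).card := by
    have : T = G.biUnion (fun B => Tn A c y l (C B)) := by
      ext z
      simp only [hT, hU, mem_filter, mem_biUnion, Tn]
      constructor
      · rintro ⟨⟨B, hB, hz⟩, ht⟩
        exact ⟨B, hB, hz, ht⟩
      · rintro ⟨B, hB, hz, ht⟩
        exact ⟨⟨B, hB, hz⟩, ht⟩
    rw [this]
    apply Finset.card_biUnion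
    intro B hB B' hB' hne
    refine Finset.disjoint_left.2 ?_
    intro v hv hv'
    exact hne ((hCB B hB v (mem_filter.1 hv).1).symm.trans (hCB B' hB' v (mem_filter.1 hv').1))
  -- the pointwise inequality
  have hpt : ∀ z ∈ U, 1 + (M.filter (fun m => z ∈ Us A c y l m)).card ≤
      (K.filter (fun a => a ∈ A.N z)).card + (if TightAt A c y l z (c z) then 1 else 0) := by
    intro z hz
    obtain ⟨B, hB, hzB⟩ := mem_biUnion.1 hz
    have hne : (Kn A c y l z).Nonempty := hCLA V A c y l t0 t1 C L F B hB z hzB
    have hsub : M.filter (fun m => z ∈ Us A c y l m) ⊆ K.filter (fun a => a ∈ A.N z) := by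
      intro m hm
      obtain ⟨hm1, hm2⟩ := mem_filter.1 hm
      refine mem_filter.2 ⟨(mem_filter.1 hm1).1, ?_⟩
      exact A.symm m z (mem_filter.1 hm2).1
    by_cases ht : TightAt A c y l z (c z)
    · have := Finset.card_le_card hsub
      simp only [ht, if_true]
      omega
    · simp only [ht, if_false]
      have hss : M.filter (fun m => z ∈ Us A c y l m) ⊂ K.filter (fun a => a ∈ A.N z) := by
        refine Finset.ssubset_iff_subset_ne.2 ⟨hsub, ?_⟩
        intro heq
        apply ht
        refine ⟨hne, ?_⟩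
        intro m hm
        have hm1 : m ∈ K.filter (fun a => a ∈ A.N z) :=
          mem_filter.2 ⟨(mem_filter.1 hm).2, (mem_filter.1 hm).1⟩
        rw [← heq] at hm1
        obtain ⟨hm2, hm3⟩ := mem_filter.1 hm1
        exact ⟨(mem_filter.1 hm2).2, (mem_filter.1 hm3).2⟩
      have := Finset.card_lt_card hss
      omega
  -- sum over `U`
  have hsum := Finset.sum_le_sum hpt
  rw [Finset.sum_add_distrib, Finset.sum_add_distrib] at hsum
  have hone : ∑ _z ∈ U, 1 = U.card := by simp
  have htt : ∑ z ∈ U, (if TightAt A c y l z (c z) then 1 else 0) = T.card := by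
    rw [hT, Finset.card_filter]
  have hswap1 : ∑ z ∈ U, (M.filter (fun m => z ∈ Us A c y l m)).card =
      ∑ m ∈ M, (U.filter (fun z => z ∈ Us A c y l m)).card := by
    simp only [Finset.card_filter]
    exact Finset.sum_comm
  have hswap2 : ∑ z ∈ U, (K.filter (fun a => a ∈ A.N z)).card =
      ∑ a ∈ K, (U.filter (fun z => a ∈ A.N z)).card := by
    simp only [Finset.card_filter]
    exact Finset.sum_comm
  rw [hone, htt, hswap1, hswap2] at hsum
  -- split `K`
  have hsplit : ∑ a ∈ K, (U.filter (fun z => a ∈ A.N z)).card =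
      ∑ a ∈ M, (U.filter (fun z => a ∈ A.N z)).card +
        ∑ a ∈ K.filter (fun m => ¬ m ∈ Mk A c), (U.filter (fun z => a ∈ A.N z)).card := by
    rw [hM]
    unfold KM
    rw [← hK]
    exact (Finset.sum_filter_add_sum_filter_not K (fun m => m ∈ Mk A c) _).symm
  have hfirst : ∑ a ∈ M, (U.filter (fun z => a ∈ A.N z)).card +
      ∑ m ∈ M, (Us A c y l m \ U).card ≤ A.D * M.card := by
    rw [← Finset.sum_add_distrib]
    have : ∀ m ∈ M, (U.filter (fun z => m ∈ A.N z)).card + (Us A c y l m \ U).card ≤ A.D := by
      intro m _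
      have hd : Disjoint (U.filter (fun z => m ∈ A.N z)) (Us A c y l m \ U) := by
        rw [Finset.disjoint_left]
        intro z hz hz'
        exact (mem_sdiff.1 hz').2 (mem_filter.1 hz).1
      rw [← Finset.card_union_of_disjoint hd]
      refine le_trans (Finset.card_le_card ?_) (A.deg m)
      intro z hz
      rcases mem_union.1 hz with h | h
      · exact A.symm z m (mem_filter.1 h).2
      · exact (mem_filter.1 (mem_sdiff.1 h).1).1
    calc _ ≤ ∑ _m ∈ M, A.D := Finset.sum_le_sum this
      _ = A.D * M.card := by rw [Finset.sum_const, smul_eq_mul, mul_comm]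
  have hsecond : ∑ a ∈ K.filter (fun m => ¬ m ∈ Mk A c), (U.filter (fun z => a ∈ A.N z)).card ≤
      A.D * (Sb A c y l).card := by
    have h1 : ∀ a ∈ K.filter (fun m => ¬ m ∈ Mk A c),
        (U.filter (fun z => a ∈ A.N z)).card ≤ A.D := by
      intro a _
      refine le_trans (Finset.card_le_card ?_) (A.deg a)
      intro z hz
      exact A.symm z a (mem_filter.1 hz).2
    have h2 : (K.filter (fun m => ¬ m ∈ Mk A c)).card ≤ (Sb A c y l).card := by
      have : K.filter (fun m => ¬ m ∈ Mk A c) ⊆ Cen y l := by
        intro z hz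
        exact hKc z (mem_filter.1 hz).1 (mem_filter.1 hz).2
      have := Finset.card_le_card this
      omega
    calc _ ≤ ∑ _a ∈ K.filter (fun m => ¬ m ∈ Mk A c), A.D := Finset.sum_le_sum h1
      _ = A.D * (K.filter (fun m => ¬ m ∈ Mk A c)).card := by
          rw [Finset.sum_const, smul_eq_mul, mul_comm]
      _ ≤ _ := Nat.mul_le_mul_left _ h2
  have hUs : ∑ m ∈ M, (Us A c y l m).card =
      ∑ m ∈ M, (U.filter (fun z => z ∈ Us A c y l m)).card + ∑ m ∈ M, (Us A c y l m \ U).card := by
    rw [← Finset.sum_add_distrib]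
    refine Finset.sum_congr rfl ?_
    intro m _
    have h1 : U.filter (fun z => z ∈ Us A c y l m) = Us A c y l m ∩ U := by
      ext z
      simp only [mem_filter, mem_inter]
      tauto
    rw [h1]
    have := Finset.card_sdiff_add_card_inter (Us A c y l m) U
    omega
  rw [hKMc] at hfirst
  rw [← hUc, ← hTc, hUs]
  have h2D : 2 * A.D * (Sb A c y l).card = A.D * (Sb A c y l).card + A.D * (Sb A c y l).card := by
    ring
  rw [h2D]
  omega

end Pool.Agent.Helper87.SX
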